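import Pool.Agent.H15.G.R_seed8.TH442.NF.Cases
import Pool.Agent.H15.G.R_seed8.TH167.SH.Main

set_option autoImplicit false

/-!
# Chains of quadratic transformations starting from standard classes
-/

namespace Pool.Agent.TH442.NF

open MvPolynomial Pool.Agent.W609 Pool.Agent.W609.CR Pool.Agent.TH167 Pool.Agent.TH167.SH
  Pool.Agent.H932R3

/-- The class meets all `(-1)`-curves nonnegatively. -/
def ENef {K : Type} [Field K] {s : ℕ} (P : Fin s → Fin 2 → K) (d : ℕ) (w : Fin s → ℕ) : Prop :=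
  ∀ (G : MvPolynomial (Fin 3) K) (e : ℕ) (u : Fin s → ℕ), Exc P G e u → 0 ≤ ip d w e u

theorem ENef.pair {K : Type} [Field K] [CharZero K] {s : ℕ} {P : Fin s → Fin 2 → K}
    (hP : AlgebraicIndependent ℚ (fun ij : Fin s × Fin 2 => P ij.1 ij.2)) {d : ℕ} {w : Fin s → ℕ}
    (h : ENef P d w) {i j : Fin s} (hij : i ≠ j) : w i + w j ≤ d := by
  have h1 := h _ _ _ (exc_line hP hij)
  rw [ip_line hij] at h1
  omega

theorem ENef.ps {K : Type} [Field K] [CharZero K] {s : ℕ} {P : Fin s → Fin 2 → K}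
    (hP : AlgebraicIndependent ℚ (fun ij : Fin s × Fin 2 => P ij.1 ij.2)) {d : ℕ} {w : Fin s → ℕ}
    (h : ENef P d w) {i : Fin 3 → Fin s} (hi : Function.Injective i) : PS i d w :=
  ⟨h.pair hP (ne10 hi).symm, h.pair hP (ne20 hi).symm, h.pair hP (ne21 hi).symm⟩

/-- The quadratic transform meets all `(-1)`-curves nonnegatively. -/
theorem ENef.cr {K : Type} [Field K] [CharZero K] {s : ℕ} {P P' : Fin s → Fin 2 → K}
    (hP : AlgebraicIndependent ℚ (fun ij : Fin s × Fin 2 => P ij.1 ij.2))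
    (hP' : AlgebraicIndependent ℚ (fun ij : Fin s × Fin 2 => P' ij.1 ij.2))
    {i : Fin 3 → Fin s} (hr : CRel P P' i) {d : ℕ} {w : Fin s → ℕ} (h : ENef P d w) :
    ENef P' (cd i d w) (wcr d i w) := by
  intro G e u hE
  have hi := hr.inj
  have p := h.ps hP hi
  by_cases q : PS i e u
  · obtain ⟨G', h1⟩ := hE.cr hr.symm q
    have h4 := h G' _ _ h1
    have h5 := ip_cr hi p (q.cr hi)
    rw [cd_cr hi q, wcr_cr hi q] at h5
    rw [h5]
    exact h4
  · have key : ∀ x y : Fin 3, x ≠ y → e < u (i x) + u (i y) →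
        0 ≤ ip (cd i d w) (wcr d i w) e u := by
      intro x y hxy hlt
      have hne : i x ≠ i y := fun h => hxy (hi h)
      obtain ⟨rfl, rfl⟩ := line_of hP' hE.irr hE.hom hE.ord hne hlt
      rw [ip_line hne, cd_cast p, wcr_cast hi p, wcr_cast hi p]
      have hb : ∀ z : Fin 3, ic i (i z) = 1 := by
        intro z
        fin_cases z
        · exact (ic_base i).1
        · exact (ic_base i).2.1
        · exact (ic_base i).2.2
      rw [hb, hb]
      unfold dl
      fin_cases x <;> fin_cases y <;> simp at hxy ⊢ <;> omega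
    have hq : ¬ (u (i 0) + u (i 1) ≤ e ∧ u (i 0) + u (i 2) ≤ e ∧ u (i 1) + u (i 2) ≤ e) :=
      fun h => q ⟨h.1, h.2.1, h.2.2⟩
    by_cases c1 : u (i 0) + u (i 1) ≤ e
    · by_cases c2 : u (i 0) + u (i 2) ≤ e
      · by_cases c3 : u (i 1) + u (i 2) ≤ e
        · exact absurd ⟨c1, c2, c3⟩ hq
        · exact key 1 2 (by decide) (by omega)
      · exact key 0 2 (by decide) (by omega)
    · exact key 0 1 (by decide) (by omega)

/-- **Chains of reflections starting from a class which meets all `(-1)`-curves nonnegatively.** -/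
theorem echain {K : Type} [Field K] [CharZero K] {s : ℕ} {P : Fin s → Fin 2 → K}
    (hP : AlgebraicIndependent ℚ (fun ij : Fin s × Fin 2 => P ij.1 ij.2)) {d : ℕ} {w : Fin s → ℕ}
    (h : ENef P d w) {b : ℤ × (Fin s → ℤ)} (hb : Relation.ReflTransGen Step (cls d w) b) :
    ∃ (P' : Fin s → Fin 2 → K) (d' : ℕ) (w' : Fin s → ℕ),
      AlgebraicIndependent ℚ (fun ij : Fin s × Fin 2 => P' ij.1 ij.2) ∧ ENef P' d' w' ∧
      b = cls d' w' ∧ chi d' w' = chi d w ∧
      Module.finrank K ↥(VS (fun j => aff (P' j)) w' d') =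
        Module.finrank K ↥(VS (fun j => aff (P j)) w d) := by
  induction hb with
  | refl => exact ⟨P, d, w, hP, h, rfl, rfl, rfl⟩
  | @tail b c _ hbc ih =>
    obtain ⟨P1, d1, w1, hP1, hN1, rfl, hc1, hd1⟩ := ih
    obtain ⟨i, hi, rfl⟩ := hbc
    obtain ⟨P2, hP2, hr⟩ := exists_crel hP1 hi
    have p := hN1.ps hP1 hi
    refine ⟨P2, cd i d1 w1, wcr d1 i w1, hP2, hN1.cr hP1 hP2 hr, refl_cls hi p, ?_, ?_⟩
    · rw [← hc1]
      have h1 := ip_cr hi p p
      have h2 := kk_cr hi p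
      have h3 := two_chi (cd i d1 w1) (wcr d1 i w1)
      rw [h1, h2, ← two_chi] at h3
      exact mul_left_cancel₀ two_ne_zero h3
    · rw [← hd1]
      exact hr.dim p

/-- A class in the orbit of a class of expected dimension which meets all `(-1)`-curves
nonnegatively has the expected dimension. -/
theorem up_enef {K : Type} [Field K] [CharZero K] {n : ℕ} {P : Fin n → Fin 2 → K}
    (hP : AlgebraicIndependent ℚ (fun ij : Fin n × Fin 2 => P ij.1 ij.2)) {d : ℕ} {w : Fin n → ℕ}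
    {d' : ℕ} {w' : Fin n → ℕ} (h : Ch (cls d w) (cls d' w')) (hN : ENef P d' w')
    (hE : ExpDim K w' P d') : ExpDim K w P d := by
  obtain ⟨P1, d1, w1, hP1, -, he, hc, hd⟩ := echain hP hN h.symm
  obtain ⟨rfl, rfl⟩ := cls_inj he
  rw [expDim_iff] at hE ⊢
  rw [dim_same hP hP1, hd, hE, hc]

/-- A class of degree at least three times its largest multiplicity. -/
theorem enef_of_three {K : Type} [Field K] {s : ℕ} (P : Fin s → Fin 2 → K) {d M : ℕ}
    {w : Fin s → ℕ} (hw : ∀ i, w i ≤ M) (h : 3 * M ≤ d) : ENef P d w := by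
  intro G e u hE
  have h1 := hE.can
  unfold ip
  have h2 : ∑ j, (w j : ℤ) * (u j : ℤ) ≤ ∑ j, (M : ℤ) * (u j : ℤ) := by
    refine Finset.sum_le_sum fun j _ => ?_
    exact mul_le_mul_of_nonneg_right (by exact_mod_cast hw j) (Nat.cast_nonneg _)
  rw [← Finset.mul_sum] at h2
  have h3 : (3 : ℤ) * e = ∑ j, (u j : ℤ) + 1 := by exact_mod_cast h1
  have h4 : (3 : ℤ) * M * e ≤ d * e := by
    have : (3 : ℤ) * M ≤ d := by exact_mod_cast h
    exact mul_le_mul_of_nonneg_right this (Nat.cast_nonneg _)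
  have h5 : (M : ℤ) * ∑ j, (u j : ℤ) = M * (3 * e) - M := by rw [h3]; ring
  have h6 : (0 : ℤ) ≤ M := Nat.cast_nonneg _
  nlinarith

/-- A standard class. -/
theorem enef_of_std {K : Type} [Field K] {n : ℕ} (hn : 4 ≤ n) (P : Fin n → Fin 2 → K) {d : ℕ}
    {w : Fin n → ℕ} (h : ∀ i j k, i ≠ j → i ≠ k → j ≠ k → w i + w j + w k ≤ d) : ENef P d w := by
  obtain ⟨r, rfl⟩ : ∃ r, n = r + 4 := ⟨n - 4, by omega⟩
  intro G e u hE
  exact red_nef h hE

end Pool.Agent.TH442.NF
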