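import Pool.Agent.H15.G.R_seed8.TH442.NF.Exc

set_option autoImplicit false

/-!
# The Weyl group orbits of standard classes of expected dimension
-/

namespace Pool.Agent.TH442.NF

open MvPolynomial Pool.Agent.W609 Pool.Agent.W609.CR Pool.Agent.TH167 Pool.Agent.TH167.SH
  Pool.Agent.H932R3

/-- From generic points to an open set. -/
theorem to_open {n : ℕ} {d : ℕ} {w : Fin n → ℕ}
    (h : ∀ {K : Type} [Field K] [CharZero K] {P : Fin n → Fin 2 → K},
      AlgebraicIndependent ℚ (fun ij : Fin n × Fin 2 => P ij.1 ij.2) → ExpDim K w P d) :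
    ∃ F : MvPolynomial (Fin n × Fin 2) ℚ, F ≠ 0 ∧ ∀ {L : Type} [Field L] [CharZero L]
      (P : Fin n → Fin 2 → L),
      MvPolynomial.aeval (fun ij : Fin n × Fin 2 => P ij.1 ij.2) F ≠ 0 → ExpDim L w P d := by
  obtain ⟨g, F, hF, hF'⟩ := dim_gen w d
  obtain ⟨K, _, _, P0, hP0⟩ := exists_generic n
  have h1 := h hP0
  rw [expDim_iff, hF' K P0 fun h0 => hF (hP0.eq_zero_of_aeval_eq_zero F h0)] at h1
  refine ⟨F, hF, fun {L} _ _ P hP => ?_⟩
  rw [expDim_iff, hF' L P hP]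
  exact h1

/-- Above the window. -/
theorem std_above {K : Type} [Field K] [CharZero K] {n : ℕ} (hn : 10 ≤ n) {P : Fin n → Fin 2 → K}
    (hP : AlgebraicIndependent ℚ (fun ij : Fin n × Fin 2 => P ij.1 ij.2)) {d : ℕ} {w : Fin n → ℕ}
    {d' : ℕ} {w' : Fin n → ℕ} (h : Ch (cls d w) (cls d' w'))
    (hs : ∀ i j k, i ≠ j → i ≠ k → j ≠ k → w' i + w' j + w' k ≤ d') {b : ℕ}
    (hb : ∀ i, w' i ≤ b + 1)
    (hd' : √(n : ℝ) + 2 * (∑ i, (w' i : ℝ)) / √(n : ℝ) +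
      2 * ((∑ i, (b - w' i) : ℕ) : ℝ) / √(n : ℝ) +
          min (√(n : ℝ) - 3) (2 / 3 + 1 / (4 * √(n : ℝ))) < 2 * (d' : ℝ) + 3) :
    ExpDim K w P d := by
  refine up_enef hP h (enef_of_std (by omega) P hs) ?_
  have hnR : (10 : ℝ) ≤ n := by exact_mod_cast hn
  have hs0 : 0 < √(n : ℝ) := Real.sqrt_pos.2 (by linarith)
  have hss : √(n : ℝ) * √(n : ℝ) = n := Real.mul_self_sqrt (by linarith)
  obtain ⟨E, hE, hE'⟩ := Pool.Agent.TH885.NW.exp_cut2 hn w'
  refine hE' P (fun h0 => hE (hP.eq_zero_of_aeval_eq_zero E h0)) d' ?_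
  right; right
  refine ⟨b, hb, ?_⟩
  have hmax : (∑ i, ((max (w' i) b : ℕ) : ℝ)) =
      (∑ i, (w' i : ℝ)) + ((∑ i, (b - w' i) : ℕ) : ℝ) := by
    rw [Nat.cast_sum, ← Finset.sum_add_distrib]
    refine Finset.sum_congr rfl fun i _ => ?_
    rw [← Nat.cast_add]
    congr 1
    omega
  rw [hmax]
  obtain ⟨g, hg⟩ : ∃ g : ℝ, g = ((∑ i, (b - w' i) : ℕ) : ℝ) := ⟨_, rfl⟩
  obtain ⟨s, hs⟩ : ∃ s, s = √(n : ℝ) := ⟨_, rfl⟩
  obtain ⟨W, hW⟩ : ∃ W : ℝ, W = ∑ i, (w' i : ℝ) := ⟨_, rfl⟩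
  rw [← hs, ← hW, ← hg] at hd' ⊢
  rw [← hs] at hs0 hss
  have e0 : 2 * W / s * s = 2 * W := div_mul_cancel₀ _ hs0.ne'
  have e3 : 2 * g / s * s = 2 * g := div_mul_cancel₀ _ hs0.ne'
  have h1 := mul_lt_mul_of_pos_right hd' hs0
  rcases min_choice (s - 3) (2 / 3 + 1 / (4 * s)) with h | h
  · left
    rw [h] at h1
    nlinarith
  · right
    rw [h] at h1
    have e1 : 1 / (4 * s) * s = 1 / 4 := by field_simp
    have e2 : (2 / 3 + 1 / (4 * s)) * s = 2 / 3 * s + 1 / 4 := by rw [add_mul, e1]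
    rw [add_mul, e2, add_mul, add_mul, e3, e0] at h1
    nlinarith

/-- Standard near-uniform classes. -/
theorem std_near {K : Type} [Field K] [CharZero K] {n : ℕ} (hn : 10 ≤ n) {P : Fin n → Fin 2 → K}
    (hP : AlgebraicIndependent ℚ (fun ij : Fin n × Fin 2 => P ij.1 ij.2)) {d : ℕ} {w : Fin n → ℕ}
    {d' : ℕ} {w' : Fin n → ℕ} (h : Ch (cls d w) (cls d' w'))
    (hs : ∀ i j k, i ≠ j → i ≠ k → j ≠ k → w' i + w' j + w' k ≤ d') {m : ℕ} (hm : 1 ≤ m)
    (hw' : ∀ i, w' i = m ∨ w' i = m + 1)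
    (h1 : (m : ℝ) + 1 ≤ n - 6 * √(n : ℝ) + 11 ∨
      2 * (d' : ℝ) + 3 < √(n : ℝ) + 2 * (∑ i, (w' i : ℝ)) / √(n : ℝ) -
        min (√(n : ℝ) - 3) (2 / 3 + 9 / (4 * √(n : ℝ))) ∨
      √(n : ℝ) + 2 * (∑ i, (w' i : ℝ)) / √(n : ℝ) +
        min (√(n : ℝ) - 3) (2 / 3 + 1 / (4 * √(n : ℝ))) < 2 * (d' : ℝ) + 3) :
    ExpDim K w P d := by
  refine up_enef hP h (enef_of_std (by omega) P hs) ?_
  rcases h1 with h1 | h1
  · obtain ⟨F, hF, hF'⟩ := near_points (L := K) (n := n) (m := m) hn hm hw'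
      (near_cond (by omega) hw' (Or.inl (by push_cast; exact h1)))
    exact hF' P (fun h0 => hF (hP.eq_zero_of_aeval_eq_zero F h0)) d'
  · obtain ⟨E, hE, hE'⟩ := Pool.Agent.TH885.NW.exp_near2 (L := K) hn hm hw'
    refine hE' P (fun h0 => hE (hP.eq_zero_of_aeval_eq_zero E h0)) d' ?_
    unfold Pool.Agent.TH885.NW.upW Pool.Agent.TH885.NW.loW
    rcases h1 with h | h
    · right; linarith
    · left; linarith

/-- Classes below a near-uniform class of expected dimension, `n ≥ 36`. -/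
theorem below_near {K : Type} [Field K] [CharZero K] {n : ℕ} (hn : 36 ≤ n)
    {P : Fin n → Fin 2 → K}
    (hP : AlgebraicIndependent ℚ (fun ij : Fin n × Fin 2 => P ij.1 ij.2)) {d : ℕ} {w : Fin n → ℕ}
    {d' : ℕ} {w' v : Fin n → ℕ} (h : Ch (cls d w) (cls d' w')) {m : ℕ} (hm : 1 ≤ m)
    (hv : ∀ i, v i = m ∨ v i = m + 1) (hw' : ∀ i, w' i ≤ v i)
    (hE : ExpDim K v P d')
    (h1 : w' = v ∨ ∑ i, (v i + 1).choose 2 ≤ (d' + 2).choose 2) : ExpDim K w P d := by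
  have hvm : ∀ i, v i ≤ m + 1 := fun i => by rcases hv i with h | h <;> omega
  have hmv : ∀ i, m ≤ v i := fun i => by rcases hv i with h | h <;> omega
  rcases h1 with h1 | h1
  · subst h1
    rcases lt_or_ge (√(n : ℝ) * d') (∑ i, (w' i : ℝ)) with hB | hB
    · exact up_nagata (by omega) hP h hB
    · refine up_enef hP h (enef_of_three P hvm ?_) hE
      have hnR : (36 : ℝ) ≤ n := by exact_mod_cast hn
      obtain ⟨s, hs⟩ : ∃ s, s = √(n : ℝ) := ⟨_, rfl⟩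
      have hss : s * s = n := by rw [hs]; exact Real.mul_self_sqrt (by linarith)
      have hs6 : 6 ≤ s := by rw [hs]; exact Real.le_sqrt_of_sq_le (by norm_num; linarith)
      rw [← hs] at hB
      have hsum : (n : ℝ) * m ≤ ∑ i, (w' i : ℝ) := by
        calc (n : ℝ) * m = ∑ _i : Fin n, (m : ℝ) := by simp
          _ ≤ ∑ i, (w' i : ℝ) := Finset.sum_le_sum fun i _ => by exact_mod_cast hmv i
      have hm1 : (1 : ℝ) ≤ m := by exact_mod_cast hm
      have h2 : s * (s * m) ≤ s * d' := by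
        rw [← mul_assoc, hss]
        linarith
      have h3 : s * m ≤ d' := le_of_mul_le_mul_left h2 (by linarith)
      have h4 : (3 : ℝ) * (m + 1) ≤ d' := by nlinarith
      exact_mod_cast h4
  · refine up_enef hP h (enef_of_three P (fun i => (hw' i).trans (hvm i)) ?_)
      (exp_mono hE h1 hw')
    by_contra hcon
    have e2 : (d' + 2).choose 2 * 2 = (d' + 2) * (d' + 1) := by
      rw [Nat.choose_two_right]
      exact Nat.div_mul_cancel (Nat.even_mul_pred_self (d' + 2)).two_dvd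
    have e1 : (m + 1).choose 2 * 2 = (m + 1) * m := by
      rw [Nat.choose_two_right, Nat.add_sub_cancel]
      exact Nat.div_mul_cancel (Nat.even_mul_pred_self (m + 1)).two_dvd
    have e3 : n * (m + 1).choose 2 ≤ ∑ i, (v i + 1).choose 2 := by
      calc n * (m + 1).choose 2 = ∑ _i : Fin n, (m + 1).choose 2 := by simp
        _ ≤ ∑ i, (v i + 1).choose 2 := Finset.sum_le_sum fun i _ =>
            Nat.choose_le_choose 2 (by have := hmv i; omega)
    have e4 : n * ((m + 1) * m) ≤ (d' + 2) * (d' + 1) := by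
      rw [← e1, ← e2, ← mul_assoc]
      exact Nat.mul_le_mul_right 2 (e3.trans h1)
    have e5 : d' ≤ 3 * m + 2 := by omega
    have e6 : (d' + 2) * (d' + 1) ≤ (3 * m + 4) * (3 * m + 3) :=
      Nat.mul_le_mul (by omega) (by omega)
    have e7 : 36 * ((m + 1) * m) ≤ n * ((m + 1) * m) := Nat.mul_le_mul_right _ hn
    nlinarith

end Pool.Agent.TH442.NF
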