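import Pool.Agent.H15.G.R_seed8.TH442.NF.Open
import Pool.Agent.H15.G.R_seed8.H248R6.Dim

set_option autoImplicit false

/-!
# The Weyl group orbits of nef classes of expected dimension
-/

namespace Pool.Agent.TH442.NF

open MvPolynomial Pool.Agent.W609 Pool.Agent.W609.CR Pool.Agent.TH167 Pool.Agent.TH167.SH
  Pool.Agent.H932R3

/-- A class of degree at least `√n M` with multiplicities at most `M` is nef. -/
theorem max_nef {K : Type} [Field K] [CharZero K] {n : ℕ} (hn : 10 ≤ n) {P : Fin n → Fin 2 → K}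
    (hP : AlgebraicIndependent ℚ (fun ij : Fin n × Fin 2 => P ij.1 ij.2)) {d M : ℕ}
    {w : Fin n → ℕ} (hw : ∀ i, w i ≤ M) (h : √(n : ℝ) * M ≤ d) : NefAt P d w := by
  intro G e u hG hGe hu
  have h1 := uni_nef hn hP h G e u hG hGe hu
  unfold ip at h1 ⊢
  have h2 : ∑ j, (w j : ℤ) * (u j : ℤ) ≤ ∑ j, (M : ℤ) * (u j : ℤ) := by
    refine Finset.sum_le_sum fun j _ => ?_
    exact mul_le_mul_of_nonneg_right (by exact_mod_cast hw j) (Nat.cast_nonneg _)
  linarith

/-- A class in the orbit of a nef class of expected dimension has the expected dimension. -/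
theorem up_nef {K : Type} [Field K] [CharZero K] {n : ℕ} {P : Fin n → Fin 2 → K}
    (hP : AlgebraicIndependent ℚ (fun ij : Fin n × Fin 2 => P ij.1 ij.2)) {d : ℕ} {w : Fin n → ℕ}
    {d' : ℕ} {w' : Fin n → ℕ} (h : Ch (cls d w) (cls d' w')) (hN : NefAt P d' w')
    (hE : ExpDim K w' P d') : ExpDim K w P d := by
  obtain ⟨P1, d1, w1, hP1, -, he, hc, hd⟩ := chain hP hN h.symm
  obtain ⟨rfl, rfl⟩ := cls_inj he
  rw [expDim_iff] at hE ⊢
  rw [dim_same hP hP1, hd, hE, hc]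

/-- A class in the orbit of a class which violates Nagata's inequality has no forms. -/
theorem up_nagata {K : Type} [Field K] [CharZero K] {n : ℕ} (hn : 10 ≤ n) {P : Fin n → Fin 2 → K}
    (hP : AlgebraicIndependent ℚ (fun ij : Fin n × Fin 2 => P ij.1 ij.2)) {d : ℕ} {w : Fin n → ℕ}
    {d' : ℕ} {w' : Fin n → ℕ} (h : Ch (cls d w) (cls d' w'))
    (hB : √(n : ℝ) * d' < ∑ i, (w' i : ℝ)) : ExpDim K w P d := by
  have hnR : (10 : ℝ) ≤ n := by exact_mod_cast hn
  obtain ⟨s, hs⟩ : ∃ s, s = √(n : ℝ) := ⟨_, rfl⟩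
  have hs3 : 3 ≤ s := by rw [hs]; exact Real.le_sqrt_of_sq_le (by norm_num; linarith)
  obtain ⟨W, hW⟩ : ∃ W : ℕ, W = ∑ i, w' i := ⟨_, rfl⟩
  have hWR : (W : ℝ) = ∑ i, (w' i : ℝ) := by rw [hW]; push_cast; rfl
  rw [← hs, ← hWR] at hB
  obtain ⟨δ, hδ⟩ : ∃ δ, δ = W - s * d' := ⟨_, rfl⟩
  have hδ0 : 0 < δ := by rw [hδ]; linarith
  obtain ⟨b, hb⟩ : ∃ b : ℕ, b = ⌈(d' : ℝ) / δ⌉₊ + 1 := ⟨_, rfl⟩
  obtain ⟨a, ha⟩ : ∃ a : ℕ, a = ⌈s * b⌉₊ := ⟨_, rfl⟩
  have hb2 : (d' : ℝ) < δ * b := by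
    have h1 := Nat.le_ceil ((d' : ℝ) / δ)
    rw [div_le_iff₀ hδ0] at h1
    have h2 : (b : ℝ) = ⌈(d' : ℝ) / δ⌉₊ + 1 := by rw [hb]; push_cast; rfl
    rw [h2]
    nlinarith
  have ha1 : s * b ≤ a := by rw [ha]; exact Nat.le_ceil _
  have ha2 : (a : ℝ) < s * b + 1 := by rw [ha]; exact Nat.ceil_lt_add_one (by positivity)
  have hlt : (a : ℝ) * d' < b * W := by
    have e1 : (a : ℝ) * d' ≤ (s * b + 1) * d' :=
      mul_le_mul_of_nonneg_right ha2.le (Nat.cast_nonneg _)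
    have e2 : b * (W : ℝ) = b * (s * d') + b * δ := by rw [hδ]; ring
    nlinarith
  have hN := uni_nef (K := K) (n := n) hn hP (d := a) (m := b) (by rw [← hs]; exact ha1)
  obtain ⟨c', hc1, hc2⟩ := h.symm.par (cls a (fun _ => b))
  obtain ⟨P1, a1, v1, hP1, hN1, rfl, -, -⟩ := chain hP hN hc1
  have hneg : ip a1 v1 d w < 0 := by
    rw [ip_comm]
    rw [bil_cls, bil_cls] at hc2
    rw [hc2]
    unfold ip
    rw [← Finset.sum_mul]
    have h1 : a * d' < b * W := by exact_mod_cast hlt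
    have h2 : ((a * d' : ℕ) : ℤ) < ((b * W : ℕ) : ℤ) := by exact_mod_cast h1
    have h3 : (W : ℤ) = ∑ i, (w' i : ℤ) := by rw [hW]; push_cast; rfl
    rw [← h3]
    push_cast at h2
    nlinarith
  have h0 : Module.finrank K ↥(VS (fun j => aff (P j)) w d) = 0 := by
    rw [dim_same hP hP1, no_form hN1 hneg]
  have h1 := chi_le_dim P d w
  rw [h0] at h1
  rw [expDim_iff, h0, max_eq_left (by exact_mod_cast h1)]
  rfl

/-- Independence of conditions passes to smaller multiplicities. -/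
theorem exp_mono {K : Type} [Field K] {n : ℕ} {P : Fin n → Fin 2 → K} {v w : Fin n → ℕ} {e : ℕ}
    (hv : ExpDim K v P e) (hc : ∑ i, (v i + 1).choose 2 ≤ (e + 2).choose 2)
    (hw : ∀ i, w i ≤ v i) : ExpDim K w P e := by
  have h1 : Module.finrank K ↥(Pool.Agent.H248R5.forms v P e) =
      (e + 2).choose 2 - ∑ i, (v i + 1).choose 2 := hv
  have hs := Pool.Agent.H248R5.surj_of_ind (w := v) (P := P) (e := e) (by omega)
  have hs2 : Function.Surjective (Pool.Agent.H248R5.ev w P e) := by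
    intro y
    have hle : ∀ i, (idealOfVars (Fin 2) K) ^ (v i) ≤ (idealOfVars (Fin 2) K) ^ (w i) :=
      fun i => Ideal.pow_le_pow_right (hw i)
    choose z hz using fun i => Ideal.Quotient.factor_surjective (hle i) (y i)
    obtain ⟨H, hH⟩ := hs z
    refine ⟨H, ?_⟩
    funext i
    rw [Pool.Agent.H248R5.ev_apply, ← hz i, ← congrFun hH i, Pool.Agent.H248R5.ev_apply,
      Ideal.Quotient.factor_mk]
  have hfin : Module.Finite K ↥(homogeneousSubmodule (Fin 3) K e) :=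
    Module.Finite.iff_fg.2 (homogeneousSubmodule_fg _ _ e)
  have hq : ∀ i, Module.Finite K (Pool.Agent.H248R5.Quo K (w i)) :=
    fun i => Pool.Agent.H248R5.quo_finite (w i)
  have h2 := LinearMap.finrank_range_add_finrank_ker (Pool.Agent.H248R5.ev w P e)
  rw [LinearMap.range_eq_top.2 hs2, finrank_top, Module.finrank_pi_fintype,
    Finset.sum_congr rfl fun i _ => Pool.Agent.H248R6.finrank_quo (K := K) (w i),
    Pool.Agent.H248R6.finrank_homog] at h2
  have h3 : Module.finrank K ↥(Pool.Agent.H248R5.forms w P e) =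
      Module.finrank K ↥(LinearMap.ker (Pool.Agent.H248R5.ev w P e)) := by
    rw [Pool.Agent.H248R5.forms_eq_map]
    exact LinearEquiv.finrank_eq (Submodule.equivSubtypeMap _ _).symm
  show Module.finrank K ↥(Pool.Agent.H248R5.forms w P e) =
      (e + 2).choose 2 - ∑ i, (w i + 1).choose 2
  omega

end Pool.Agent.TH442.NF
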